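import Mathlib

/-!
# Pairing the vertices of a connected graph

In a connected graph the vertices can be paired (at most one prescribed vertex stays single) so
that for every real function on the vertices the sum of its differences over the pairs is at most
its total variation over the edges.
-/

set_option autoImplicit false

namespace Pool.Agent.X77.TreePair

open Finset

/-- Pairing in a rooted tree given by its parent function `π`, with rank function `d`. -/
theorem pair_aux {V : Type*} [Fintype V] [DecidableEq V] (r : V) (π : V → V) (d : V → ℕ)
    (hd : ∀ v, v ≠ r → d (π v) < d v) :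
    ∀ (k : ℕ) (W : Finset V), W.card = k → r ∈ W → (∀ v ∈ W, v ≠ r → π v ∈ W) →
      ∀ X : Finset V, X ⊆ W → Even X.card →
      ∃ σ : V → V, (∀ x, σ (σ x) = x) ∧ (∀ x, σ x ≠ x ↔ x ∈ X) ∧
        ∀ f : V → ℝ, ∑ x, |f x - f (σ x)| ≤ 2 * ∑ v ∈ W.erase r, |f v - f (π v)| := by
  intro k
  induction k with
  | zero =>
    intro W hW hr
    rw [Finset.card_eq_zero] at hW
    rw [hW] at hr
    simp at hr
  | succ k ih =>
    intro W hW hr hcl X hX hev
    by_cases hX0 : X = ∅
    · subst hX0
      refine ⟨id, fun _ => rfl, fun x => by simp, fun f => ?_⟩
      simp only [id, sub_self, abs_zero, Finset.sum_const_zero]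
      have : 0 ≤ ∑ v ∈ W.erase r, |f v - f (π v)| := Finset.sum_nonneg fun _ _ => abs_nonneg _
      linarith
    -- there is a vertex other than the root
    have hne : (W.erase r).Nonempty := by
      by_contra h
      rw [Finset.not_nonempty_iff_eq_empty] at h
      have h1 : W ⊆ {r} := by
        intro x hx
        by_contra hxr
        have : x ∈ W.erase r := Finset.mem_erase.2 ⟨by simpa using hxr, hx⟩
        rw [h] at this
        simp at this
      have h2 : X.card ≤ 1 := by
        have := Finset.card_le_card (hX.trans h1)
        simpa using this
      have h3 : X.card ≠ 0 := by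
        intro h4
        exact hX0 (Finset.card_eq_zero.1 h4)
      have h4 : X.card = 1 := by omega
      rw [h4] at hev
      revert hev
      decide
    obtain ⟨v, hv, hmax⟩ := Finset.exists_max_image (W.erase r) d hne
    rw [Finset.mem_erase] at hv
    obtain ⟨hvr, hvW⟩ := hv
    set u := π v with hu
    have huW : u ∈ W := hcl v hvW hvr
    have huv : u ≠ v := by
      intro h
      have := hd v hvr
      rw [← hu, h] at this
      omega
    have hW' : (W.erase v).card = k := by
      rw [Finset.card_erase_of_mem hvW]
      omega
    have hr' : r ∈ W.erase v := Finset.mem_erase.2 ⟨hvr.symm, hr⟩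
    have hcl' : ∀ w ∈ W.erase v, w ≠ r → π w ∈ W.erase v := by
      intro w hw hwr
      rw [Finset.mem_erase] at hw
      refine Finset.mem_erase.2 ⟨fun h => ?_, hcl w hw.2 hwr⟩
      have h1 := hd w hwr
      rw [h] at h1
      have h2 := hmax w (Finset.mem_erase.2 ⟨hwr, hw.2⟩)
      omega
    have hsum : ∀ f : V → ℝ, ∑ w ∈ W.erase r, |f w - f (π w)|
        = ∑ w ∈ (W.erase v).erase r, |f w - f (π w)| + |f v - f u| := by
      intro f
      have h1 : v ∈ W.erase r := Finset.mem_erase.2 ⟨hvr, hvW⟩
      rw [← Finset.sum_erase_add _ _ h1, Finset.erase_right_comm]
    have huW' : u ∈ W.erase v := Finset.mem_erase.2 ⟨huv, huW⟩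
    by_cases hvX : v ∈ X
    · by_cases huX : u ∈ X
      · -- pair `v` with its parent
        have hcard : Even ((X.erase v).erase u).card := by
          rw [Finset.card_erase_of_mem (Finset.mem_erase.2 ⟨huv, huX⟩),
            Finset.card_erase_of_mem hvX]
          have h1 : 1 < X.card := Finset.one_lt_card.2 ⟨u, huX, v, hvX, huv⟩
          obtain ⟨c, hc⟩ := hev
          exact ⟨c - 1, by omega⟩
        obtain ⟨σ, h1, h2, h3⟩ := ih (W.erase v) hW' hr' hcl' ((X.erase v).erase u)
          ((Finset.erase_subset _ _).trans (Finset.erase_subset_erase _ hX)) hcard
        have hσu : σ u = u := by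
          by_contra h
          have := (h2 u).1 h
          simp at this
        have hσv : σ v = v := by
          by_contra h
          have := (h2 v).1 h
          simp at this
        have hσne : ∀ x, x ≠ u → x ≠ v → σ x ≠ u ∧ σ x ≠ v := by
          intro x hxu hxv
          constructor
          · intro h
            have := h1 x
            rw [h, hσu] at this
            exact hxu this.symm
          · intro h
            have := h1 x
            rw [h, hσv] at this
            exact hxv this.symm
        refine ⟨fun x => σ (Equiv.swap u v x), fun x => ?_, fun x => ?_, fun f => ?_⟩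
        · by_cases hxu : x = u
          · subst hxu
            simp only [Equiv.swap_apply_left, hσv, Equiv.swap_apply_right, hσu]
          · by_cases hxv : x = v
            · subst hxv
              simp only [Equiv.swap_apply_right, hσu, Equiv.swap_apply_left, hσv]
            · obtain ⟨h4, h5⟩ := hσne x hxu hxv
              simp only [Equiv.swap_apply_of_ne_of_ne hxu hxv,
                Equiv.swap_apply_of_ne_of_ne h4 h5, h1]
        · by_cases hxu : x = u
          · subst hxu
            simp only [Equiv.swap_apply_left, hσv]
            exact ⟨fun _ => huX, fun _ => huv.symm⟩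
          · by_cases hxv : x = v
            · subst hxv
              simp only [Equiv.swap_apply_right, hσu]
              exact ⟨fun _ => hvX, fun _ => huv⟩
            · simp only [Equiv.swap_apply_of_ne_of_ne hxu hxv]
              rw [h2 x]
              simp [hxu, hxv]
        · rw [hsum f]
          have hpt : ∀ x, |f x - f (σ (Equiv.swap u v x))| ≤ |f x - f (σ x)|
              + ((if x = u then |f v - f u| else 0) + (if x = v then |f v - f u| else 0)) := by
            intro x
            by_cases hxu : x = u
            · subst hxu
              rw [Equiv.swap_apply_left, hσv, hσu, if_pos rfl, if_neg huv, abs_sub_comm]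
              simp
            · by_cases hxv : x = v
              · subst hxv
                rw [Equiv.swap_apply_right, hσu, hσv, if_neg hxu, if_pos rfl]
                simp
              · rw [Equiv.swap_apply_of_ne_of_ne hxu hxv, if_neg hxu, if_neg hxv]
                simp
          refine (Finset.sum_le_sum fun x _ => hpt x).trans ?_
          rw [Finset.sum_add_distrib, Finset.sum_add_distrib, Finset.sum_ite_eq' Finset.univ u,
            Finset.sum_ite_eq' Finset.univ v, if_pos (Finset.mem_univ _),
            if_pos (Finset.mem_univ _)]
          have := h3 f
          linarith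
      · -- replace `v` by its parent
        have hcard : Even (insert u (X.erase v)).card := by
          rw [Finset.card_insert_of_notMem (fun h => huX (Finset.mem_of_mem_erase h)),
            Finset.card_erase_of_mem hvX]
          have h1 : 0 < X.card := Finset.card_pos.2 ⟨v, hvX⟩
          obtain ⟨c, hc⟩ := hev
          exact ⟨c, by omega⟩
        obtain ⟨σ, h1, h2, h3⟩ := ih (W.erase v) hW' hr' hcl' (insert u (X.erase v))
          (Finset.insert_subset huW' (Finset.erase_subset_erase _ hX)) hcard
        have hσv : σ v = v := by
          by_contra h
          have := (h2 v).1 h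
          simp [huv.symm] at this
        refine ⟨fun x => Equiv.swap u v (σ (Equiv.swap u v x)), fun x => ?_, fun x => ?_,
          fun f => ?_⟩
        · simp only [Equiv.swap_apply_self, h1]
        · have h4 : Equiv.swap u v (σ (Equiv.swap u v x)) ≠ x ↔
              σ (Equiv.swap u v x) ≠ Equiv.swap u v x := by
            constructor
            · intro h h5
              exact h (by rw [h5, Equiv.swap_apply_self])
            · intro h h5
              apply h
              have h6 := congrArg (Equiv.swap u v) h5
              rwa [Equiv.swap_apply_self] at h6
          rw [h4, h2]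
          by_cases hxu : x = u
          · subst hxu
            rw [Equiv.swap_apply_left]
            simp [huv.symm, huX]
          · by_cases hxv : x = v
            · subst hxv
              rw [Equiv.swap_apply_right]
              simp [hvX]
            · rw [Equiv.swap_apply_of_ne_of_ne hxu hxv]
              simp [hxu, hxv]
        · rw [hsum f]
          have hre : ∑ x, |f x - f (Equiv.swap u v (σ (Equiv.swap u v x)))|
              = ∑ x, |f (Equiv.swap u v x) - f (Equiv.swap u v (σ x))| := by
            rw [← Equiv.sum_comp (Equiv.swap u v)]
            refine Finset.sum_congr rfl fun x _ => ?_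
            rw [Equiv.swap_apply_self]
          rw [hre]
          have hpt : ∀ x, |f (Equiv.swap u v x) - f (Equiv.swap u v (σ x))| ≤ |f x - f (σ x)|
              + ((if x = u then |f v - f u| else 0) + (if x = σ u then |f v - f u| else 0)) := by
            intro x
            have htri : ∀ a b c : ℝ, |a - b| ≤ |c - b| + |a - c| := by
              intro a b c
              have := abs_sub_le a c b
              linarith
            have htri2 : ∀ a b c : ℝ, |a - b| ≤ |a - c| + |b - c| := by
              intro a b c
              have := abs_sub_le a c b
              rw [abs_sub_comm c b] at this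
              linarith
            by_cases hxu : x = u
            · rw [hxu, Equiv.swap_apply_left, if_pos rfl]
              have hσu1 : σ u ≠ u := (h2 u).2 (Finset.mem_insert_self _ _)
              have hσu2 : σ u ≠ v := by
                intro h
                have := h1 u
                rw [h, hσv] at this
                exact huv this.symm
              rw [Equiv.swap_apply_of_ne_of_ne hσu1 hσu2, if_neg (fun h => hσu1 h.symm)]
              have := htri (f v) (f (σ u)) (f u)
              linarith
            · by_cases hxv : x = v
              · subst hxv
                rw [hσv, sub_self, abs_zero]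
                positivity
              · rw [Equiv.swap_apply_of_ne_of_ne hxu hxv, if_neg hxu]
                by_cases hxs : x = σ u
                · have h5 : σ x = u := by rw [hxs, h1]
                  rw [h5, Equiv.swap_apply_left, if_pos hxs]
                  have := htri2 (f x) (f v) (f u)
                  linarith
                · have h5 : σ x ≠ u := by
                    intro h
                    apply hxs
                    rw [← h, h1]
                  have h6 : σ x ≠ v := by
                    intro h
                    apply hxv
                    rw [← h1 x, h, hσv]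
                  rw [Equiv.swap_apply_of_ne_of_ne h5 h6, if_neg hxs]
                  simp
          refine (Finset.sum_le_sum fun x _ => hpt x).trans ?_
          rw [Finset.sum_add_distrib, Finset.sum_add_distrib, Finset.sum_ite_eq' Finset.univ u,
            Finset.sum_ite_eq' Finset.univ (σ u), if_pos (Finset.mem_univ _),
            if_pos (Finset.mem_univ _)]
          have := h3 f
          linarith
    · obtain ⟨σ, h1, h2, h3⟩ := ih (W.erase v) hW' hr' hcl' X
        (fun x hx => Finset.mem_erase.2 ⟨fun h => hvX (h ▸ hx), hX hx⟩) hev
      refine ⟨σ, h1, h2, fun f => ?_⟩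
      rw [hsum f]
      have := h3 f
      have h4 := abs_nonneg (f v - f u)
      linarith

/-- **Pairing lemma.** The vertices of a connected graph are paired by an involution (which fixes
no vertex except possibly the given vertex `r`) so that for every function the differences over
the pairs sum up to at most the total variation over the edges (both sums over ordered pairs). -/
theorem pairing {V : Type*} [Fintype V] (G : SimpleGraph V) (hG : G.Connected)
    [DecidableRel G.Adj] (r : V) :
    ∃ σ : V → V, (∀ x, σ (σ x) = x) ∧ (∀ x, σ x = x → x = r) ∧
      ∀ f : V → ℝ, ∑ x, |f x - f (σ x)| ≤ ∑ x, ∑ y, if G.Adj x y then |f x - f y| else 0 := by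
  classical
  have hpar : ∀ v, v ≠ r → ∃ u, G.Adj v u ∧ G.dist r u < G.dist r v := by
    intro v hv
    obtain ⟨p, hp⟩ := hG.exists_walk_length_eq_dist v r
    cases p with
    | nil => exact absurd rfl hv
    | cons h q =>
      rename_i u
      refine ⟨u, h, ?_⟩
      rw [SimpleGraph.Walk.length_cons] at hp
      have h1 := SimpleGraph.dist_le q
      rw [G.dist_comm (u := r) (v := v), G.dist_comm (u := r) (v := u)]
      omega
  choose! π hadj hlt using hpar
  obtain ⟨σ, h1, h2, h3⟩ := pair_aux r π (G.dist r) hlt (Fintype.card V) Finset.univ rfl
    (Finset.mem_univ _) (fun _ _ _ => Finset.mem_univ _)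
    (if Even (Fintype.card V) then Finset.univ else Finset.univ.erase r)
    (Finset.subset_univ _) (by
      split_ifs with h
      · rwa [Finset.card_univ]
      · rw [Finset.card_erase_of_mem (Finset.mem_univ _), Finset.card_univ]
        rw [Nat.not_even_iff_odd] at h
        obtain ⟨c, hc⟩ := h
        exact ⟨c, by omega⟩)
  refine ⟨σ, h1, fun x hx => ?_, fun f => (h3 f).trans ?_⟩
  · by_contra hxr
    have h4 : x ∈ (if Even (Fintype.card V) then Finset.univ else Finset.univ.erase r) := by
      split_ifs
      · exact Finset.mem_univ _
      · exact Finset.mem_erase.2 ⟨hxr, Finset.mem_univ _⟩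
    exact (h2 x).2 h4 hx
  · rw [← Finset.sum_product']
    set g : V × V → ℝ := fun p => if G.Adj p.1 p.2 then |f p.1 - f p.2| else 0 with hg
    have hg0 : ∀ p, 0 ≤ g p := by
      intro p
      simp only [hg]
      split_ifs
      · exact abs_nonneg _
      · exact le_rfl
    set A : Finset (V × V) := (Finset.univ.erase r).image (fun v => (v, π v)) with hA
    set B : Finset (V × V) := (Finset.univ.erase r).image (fun v => (π v, v)) with hB
    have hdisj : Disjoint A B := by
      rw [Finset.disjoint_left]
      rintro p hpA hpB
      simp only [hA, hB, Finset.mem_image, Finset.mem_erase, Finset.mem_univ, and_true]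
        at hpA hpB
      obtain ⟨v, hv, rfl⟩ := hpA
      obtain ⟨w, hw, hw2⟩ := hpB
      rw [Prod.mk.injEq] at hw2
      have h5 := hlt v hv
      have h6 := hlt w hw
      rw [hw2.1, hw2.2] at h6
      omega
    have hsA : ∑ p ∈ A, g p = ∑ v ∈ Finset.univ.erase r, |f v - f (π v)| := by
      rw [hA, Finset.sum_image (fun a _ b _ h => (Prod.mk.inj h).1)]
      refine Finset.sum_congr rfl fun v hv => ?_
      have := hadj v (Finset.ne_of_mem_erase hv)
      simp only [hg, if_pos this]
    have hsB : ∑ p ∈ B, g p = ∑ v ∈ Finset.univ.erase r, |f v - f (π v)| := by
      rw [hB, Finset.sum_image (fun a _ b _ h => (Prod.mk.inj h).2)]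
      refine Finset.sum_congr rfl fun v hv => ?_
      have := (hadj v (Finset.ne_of_mem_erase hv)).symm
      simp only [hg, if_pos this]
      rw [abs_sub_comm]
    have h5 : ∑ p ∈ A ∪ B, g p ≤ ∑ p ∈ (Finset.univ ×ˢ Finset.univ : Finset (V × V)), g p :=
      Finset.sum_le_sum_of_subset_of_nonneg (fun p _ => by simp) (fun p _ _ => hg0 p)
    rw [Finset.sum_union hdisj, hsA, hsB] at h5
    have h6 : ∑ v ∈ (Finset.univ : Finset V).erase r, |f v - f (π v)| + ∑ v ∈
        (Finset.univ : Finset V).erase r, |f v - f (π v)|
        = 2 * ∑ v ∈ (Finset.univ : Finset V).erase r, |f v - f (π v)| := by ring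
    rw [← h6]
    exact h5

end Pool.Agent.X77.TreePair
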